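import Mathlib
import Pool.Agent.Helper48.QH.Core
import Pool.Agent.Helper48.QH.Final

/-!
# MP_fc1578_an: an explicit lower bound for the constant of quasiconformal homogeneity

Every hyperbolic surface with systole `l > 0` which is `K`-quasiconformally homogeneous has
`K ≥ 1 + 10^-20 / ((1 + l^2) cosh^3 (l/2))`, and `K ≥ 1 + 10^-23 / (1 + A)^4` if its area is at most `A`.
-/

set_option autoImplicit false

open MeasureTheory UpperHalfPlane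
open scoped ContDiff MatrixGroups

noncomputable section

namespace Pool.Agent.Results.MP_fc1578_an.ExplicitGap

/-- divergence of the vector field `p = (re p, im p)` of the plane -/
def dvg (p : ℂ → ℂ) (z : ℂ) : ℝ := (fderiv ℝ p z 1).re + (fderiv ℝ p z Complex.I).im

/-- `f` is a `K`-quasiconformal homeomorphism of the upper half-plane: for all open `U` and smooth `u`, the Dirichlet
energy of `u ∘ f` on `U`, i.e. the supremum over the test fields `p` in `U` of `-2 ∫ (u ∘ f) div p - ∫ |p|^2`, is at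
most `K` times the Dirichlet energy of `u` on `f(U)` -/
def IsQC (K : ℝ) (f : ℍ ≃ₜ ℍ) : Prop :=
  ∀ (U : Set ℂ) (u : ℂ → ℝ) (p : ℂ → ℂ), IsOpen U → U ⊆ {z | 0 < z.im} →
    ContDiffOn ℝ ∞ u {z | 0 < z.im} →
    ContDiff ℝ ∞ p → HasCompactSupport p → tsupport p ⊆ U →
    ENNReal.ofReal (-2 * (∫ z, u ((f (ofComplex z) : ℍ) : ℂ) * dvg p z) - ∫ z, ‖p z‖ ^ 2) ≤
      ENNReal.ofReal K *
        ∫⁻ w in {w : ℂ | ∃ z : ℍ, (z : ℂ) ∈ U ∧ ((f z : ℍ) : ℂ) = w},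
          ENNReal.ofReal (‖fderiv ℝ u w‖ ^ 2)

/-- infimum of the hyperbolic displacements of the elements of `Γ` other than `1` and `-1` -/
def sys (Γ : Subgroup SL(2, ℝ)) : ℝ :=
  sInf {d | ∃ g ∈ Γ, g ≠ 1 ∧ g ≠ -1 ∧ ∃ z : ℍ, d = dist z (g • z)}

/-- `ℍ/Γ` is `K`-quasiconformally homogeneous -/
def Homog (K : ℝ) (Γ : Subgroup SL(2, ℝ)) : Prop :=
  ∀ x y : ℍ, ∃ f : ℍ ≃ₜ ℍ, IsQC K f ∧
    (∀ g ∈ Γ, ∃ g' ∈ Γ, ∀ z, f (g • z) = g' • f z) ∧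
    (∀ g' ∈ Γ, ∃ g ∈ Γ, ∀ z, f (g • z) = g' • f z) ∧ f x = y

theorem result : ∀ Γ : Subgroup SL(2, ℝ), (∃ g ∈ Γ, g ≠ 1 ∧ g ≠ -1) → 0 < sys Γ →
    ∀ K : ℝ, 1 ≤ K → Homog K Γ →
      1 + 1 / 10 ^ 20 / ((1 + sys Γ ^ 2) * Real.cosh (sys Γ / 2) ^ 3) ≤ K ∧
      ∀ D : Set ℍ, MeasurableSet D → (∀ z : ℍ, ∃ g ∈ Γ, g • z ∈ D) →
        ∀ A : ℝ, 0 ≤ A → volume D ≤ ENNReal.ofReal A → 1 + 1 / 10 ^ 23 / (1 + A) ^ 4 ≤ K := by
  intro Γ hΓ hs K hK hH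
  have h1 : Pool.Agent.Helper48.QH.Homog K Γ := hH
  exact ⟨Pool.Agent.Helper48.QH.main_bound hΓ hs hK h1, fun D hD hcov A hA hvol =>
    Pool.Agent.Helper48.QH.area_version hΓ hs hK h1 hD hcov hA hvol⟩

end Pool.Agent.Results.MP_fc1578_an.ExplicitGap
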